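import Pool.Agent.Q152.QT.Stm

/-!
# Project QT (helper152): job QT2
-/

set_option autoImplicit false

namespace Pool.Agent.Q63.QT

open Pool.Agent.Q152.QT Finset

theorem mult_le (x h A : ℕ) (hA : 0 < A) :
    (((Ioc x (x + h)).filter (fun a => A ∣ a)).card : ℝ) ≤ (h : ℝ) / A + 1 := by
  have h1 : ((Ioc x (x + h)).filter (fun a => A ∣ a)).card ≤ (Ioc (x / A) ((x + h) / A)).card := by
    apply card_le_card_of_injOn (fun a => a / A)
    · intro a ha
      rw [mem_coe, mem_filter, mem_Ioc] at ha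
      obtain ⟨⟨h2, h3⟩, k, rfl⟩ := ha
      rw [mem_coe, mem_Ioc]
      simp only
      rw [Nat.mul_div_cancel_left k hA]
      refine ⟨?_, ?_⟩
      · exact Nat.div_lt_of_lt_mul h2
      · rw [Nat.le_div_iff_mul_le hA]
        linarith [mul_comm A k]
    · intro a ha b hb hab
      rw [mem_coe, mem_filter] at ha hb
      obtain ⟨-, k, rfl⟩ := ha
      obtain ⟨-, l, rfl⟩ := hb
      simp only at hab
      rw [Nat.mul_div_cancel_left k hA, Nat.mul_div_cancel_left l hA] at hab
      rw [hab]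
  rw [Nat.card_Ioc] at h1
  have h2 : (x + h) / A < x / A + h / A + 2 := by
    apply Nat.div_lt_of_lt_mul
    have h3 := Nat.lt_mul_div_succ x hA
    have h4 := Nat.lt_mul_div_succ h hA
    calc x + h < A * (x / A + 1) + A * (h / A + 1) := Nat.add_lt_add h3 h4
      _ = A * (x / A + h / A + 2) := by ring
  have h5 : ((Ioc x (x + h)).filter (fun a => A ∣ a)).card ≤ h / A + 1 := by
    obtain ⟨q1, hq1⟩ : ∃ q : ℕ, q = x / A := ⟨_, rfl⟩
    obtain ⟨q2, hq2⟩ : ∃ q : ℕ, q = h / A := ⟨_, rfl⟩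
    obtain ⟨q3, hq3⟩ : ∃ q : ℕ, q = (x + h) / A := ⟨_, rfl⟩
    rw [← hq1, ← hq2, ← hq3] at h2
    rw [← hq1, ← hq3] at h1
    rw [← hq2]
    omega
  calc (((Ioc x (x + h)).filter (fun a => A ∣ a)).card : ℝ) ≤ ((h / A + 1 : ℕ) : ℝ) := by
        exact_mod_cast h5
    _ = ((h / A : ℕ) : ℝ) + 1 := by push_cast; ring
    _ ≤ (h : ℝ) / A + 1 := by
        have := @Nat.cast_div_le ℝ _ _ _ h A
        linarith

theorem one_sum (x h M : ℕ) (hM : M ≠ 0) :
    ∑ a ∈ Ioc x (x + h), ((h : ℝ) / (Nat.gcd a M : ℕ) + 1)⁻¹ ≤ M.divisors.card := by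
  have h1 : ∀ a ∈ Ioc x (x + h), ((h : ℝ) / (Nat.gcd a M : ℕ) + 1)⁻¹ ≤
      ∑ A ∈ M.divisors, if A ∣ a then ((h : ℝ) / A + 1)⁻¹ else 0 := by
    intro a _
    have h2 : Nat.gcd a M ∈ M.divisors := Nat.mem_divisors.2 ⟨Nat.gcd_dvd_right _ _, hM⟩
    have h3 := single_le_sum (f := fun A : ℕ => if A ∣ a then ((h : ℝ) / A + 1)⁻¹ else 0)
      (fun A _ => by
        split_ifs
        · positivity
        · exact le_rfl) h2
    rwa [if_pos (Nat.gcd_dvd_left a M)] at h3
  calc ∑ a ∈ Ioc x (x + h), ((h : ℝ) / (Nat.gcd a M : ℕ) + 1)⁻¹ ≤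
        ∑ a ∈ Ioc x (x + h), ∑ A ∈ M.divisors, if A ∣ a then ((h : ℝ) / A + 1)⁻¹ else 0 :=
        sum_le_sum h1
    _ = ∑ A ∈ M.divisors, ∑ a ∈ Ioc x (x + h), if A ∣ a then ((h : ℝ) / A + 1)⁻¹ else 0 := sum_comm
    _ ≤ ∑ _A ∈ M.divisors, (1 : ℝ) := by
        apply sum_le_sum
        intro A hA
        have hA0 : 0 < A := Nat.pos_of_mem_divisors hA
        rw [← sum_filter, sum_const, nsmul_eq_mul]
        have h4 := mult_le x h A hA0
        have h5 : 0 < (h : ℝ) / A + 1 := by positivity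
        calc _ ≤ ((h : ℝ) / A + 1) * ((h : ℝ) / A + 1)⁻¹ :=
              mul_le_mul_of_nonneg_right h4 (by positivity)
          _ = 1 := mul_inv_cancel₀ h5.ne'
    _ = M.divisors.card := by simp

theorem t_Wt : S_Wt := by
  classical
  intro k
  induction k with
  | zero =>
    intro x h D _ _
    simp
  | succ k ih =>
    intro x h D hh hD
    -- the terms
    have hcast : ∀ (n : Fin k → ℕ) (a : ℕ) (j : Fin k),
        ∏ i ∈ univ.filter (fun i => i < j.castSucc), (Fin.snoc n a : Fin (k + 1) → ℕ) i =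
        ∏ i ∈ univ.filter (fun i => i < j), n i := by
      intro n a j
      rw [prod_filter, prod_filter, Fin.prod_univ_castSucc]
      have h1 : ¬ (Fin.last k < j.castSucc) := not_lt.2 (Fin.le_last _)
      rw [if_neg h1, mul_one]
      apply prod_congr rfl
      intro i _
      rw [Fin.snoc_castSucc]
      simp only [Fin.castSucc_lt_castSucc_iff]
    have hlast : ∀ (n : Fin k → ℕ) (a : ℕ),
        ∏ i ∈ univ.filter (fun i => i < Fin.last k), (Fin.snoc n a : Fin (k + 1) → ℕ) i =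
        ∏ i, n i := by
      intro n a
      rw [prod_filter, Fin.prod_univ_castSucc, if_neg (lt_irrefl _), mul_one]
      apply prod_congr rfl
      intro i _
      rw [Fin.snoc_castSucc, if_pos (Fin.castSucc_lt_last i)]
    have hmem : ∀ (n : Fin k → ℕ) (a : ℕ), (Fin.snoc n a : Fin (k + 1) → ℕ) ∈
        Fintype.piFinset (fun i => Ioc (x i) (x i + h)) ↔
        n ∈ Fintype.piFinset (fun i : Fin k => Ioc (x i.castSucc) (x i.castSucc + h)) ∧
        a ∈ Ioc (x (Fin.last k)) (x (Fin.last k) + h) := by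
      intro n a
      rw [Fintype.mem_piFinset, Fintype.mem_piFinset, Fin.forall_fin_succ']
      simp only [Fin.snoc_castSucc, Fin.snoc_last]
    have hsum : ∑ n ∈ Fintype.piFinset (fun i => Ioc (x i) (x i + h)),
        ∏ j, ((h : ℝ) / (Nat.gcd (n j) (∏ i ∈ univ.filter (fun i => i < j), n i) : ℕ) + 1)⁻¹ =
        ∑ n ∈ Fintype.piFinset (fun i : Fin k => Ioc (x i.castSucc) (x i.castSucc + h)),
          ∑ a ∈ Ioc (x (Fin.last k)) (x (Fin.last k) + h),
          (∏ j, ((h : ℝ) / (Nat.gcd (n j) (∏ i ∈ univ.filter (fun i => i < j), n i) : ℕ) + 1)⁻¹) *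
            ((h : ℝ) / (Nat.gcd a (∏ i, n i) : ℕ) + 1)⁻¹ := by
      rw [← sum_product']
      apply sum_bij' (fun n _ => (Fin.init n, n (Fin.last k)))
        (fun p _ => (Fin.snoc p.1 p.2 : Fin (k + 1) → ℕ))
      · intro n hn
        rw [mem_product]
        have h1 := (hmem (Fin.init n) (n (Fin.last k))).1 (by rwa [Fin.snoc_init_self])
        exact h1
      · intro p hp
        rw [mem_product] at hp
        exact (hmem p.1 p.2).2 hp
      · intro n _
        exact Fin.snoc_init_self n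
      · intro p _
        simp
      · intro n _
        have h1 : n = (Fin.snoc (Fin.init n) (n (Fin.last k)) : Fin (k + 1) → ℕ) :=
          (Fin.snoc_init_self n).symm
        obtain ⟨n', a, hn'⟩ : ∃ (n' : Fin k → ℕ) (a : ℕ), n = (Fin.snoc n' a : Fin (k + 1) → ℕ) :=
          ⟨_, _, h1⟩
        rw [hn']
        simp only [Fin.init_snoc, Fin.snoc_last]
        rw [Fin.prod_univ_castSucc]
        simp only [hcast, hlast, Fin.snoc_castSucc, Fin.snoc_last]
    rw [hsum]
    have hne : (Ioc (x (Fin.last k)) (x (Fin.last k) + h)).Nonempty :=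
      nonempty_Ioc.2 (by omega)
    obtain ⟨a₀, ha₀⟩ := hne
    have hD' : ∀ n ∈ Fintype.piFinset (fun i : Fin k => Ioc (x i.castSucc) (x i.castSucc + h)),
        ∀ j : Fin k, ((∏ i ∈ univ.filter (fun i => i < j), n i).divisors.card : ℝ) ≤ D := by
      intro n hn j
      have h1 := hD (Fin.snoc n a₀) ((hmem n a₀).2 ⟨hn, ha₀⟩) j.castSucc
      rwa [hcast] at h1
    have hDl : ∀ n ∈ Fintype.piFinset (fun i : Fin k => Ioc (x i.castSucc) (x i.castSucc + h)),
        ((∏ i, n i).divisors.card : ℝ) ≤ D := by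
      intro n hn
      have h1 := hD (Fin.snoc n a₀) ((hmem n a₀).2 ⟨hn, ha₀⟩) (Fin.last k)
      rwa [hlast] at h1
    have hrec := ih (fun i => x i.castSucc) h D hh hD'
    calc _ ≤ ∑ n ∈ Fintype.piFinset (fun i : Fin k => Ioc (x i.castSucc) (x i.castSucc + h)),
          (∏ j, ((h : ℝ) / (Nat.gcd (n j) (∏ i ∈ univ.filter (fun i => i < j), n i) : ℕ) + 1)⁻¹) *
            D := by
          apply sum_le_sum
          intro n hn
          rw [← mul_sum]
          apply mul_le_mul_of_nonneg_left _ (prod_nonneg (fun j _ => by positivity))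
          refine (one_sum _ _ _ ?_).trans (hDl n hn)
          rw [prod_ne_zero_iff]
          intro i _
          have h1 := (mem_Ioc.1 (Fintype.mem_piFinset.1 hn i)).1
          omega
      _ = (∑ n ∈ Fintype.piFinset (fun i : Fin k => Ioc (x i.castSucc) (x i.castSucc + h)),
          ∏ j, ((h : ℝ) / (Nat.gcd (n j) (∏ i ∈ univ.filter (fun i => i < j), n i) : ℕ) + 1)⁻¹) *
            D := by rw [sum_mul]
      _ ≤ D ^ k * D := by
          by_cases hk : (Fintype.piFinset
              (fun i : Fin k => Ioc (x i.castSucc) (x i.castSucc + h))).Nonempty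
          · obtain ⟨n, hn⟩ := hk
            have h2 : 0 ≤ D := le_trans (Nat.cast_nonneg _) (hDl n hn)
            exact mul_le_mul_of_nonneg_right hrec h2
          · exfalso
            apply hk
            refine ⟨fun i => x i.castSucc + h, Fintype.mem_piFinset.2 (fun i => mem_Ioc.2 ?_)⟩
            omega
      _ = D ^ (k + 1) := by ring

end Pool.Agent.Q63.QT
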