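import Pool.Agent.Q152.QT.Stm
import Pool.Agent.H358R2.Asym

/-!
# Project QT (helper152): job QT3b
-/

set_option autoImplicit false

namespace Pool.Agent.Q63.QT

open Pool.Agent.Q152.QT Finset

theorem le_of_sq_le_sq_pos {a b : ℝ} (h : a ^ 2 ≤ b ^ 2) (hb : 0 ≤ b) : a ≤ b := by
  nlinarith [sq_nonneg (a - b), abs_le_of_sq_le_sq' h hb]

/-- the algebra of the four cases -/
theorem four_cases (k s : ℕ) (hs : s ≤ k) (H M E PS PT : ℝ) (hH : 1 ≤ H) (hM : 0 < M) (hE0 : 0 < E)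
    (hE1 : E ≤ 1) (hPS : 1 ≤ PS) (hPT0 : 0 < PT) (hPP : M ^ k ≤ PS * PT)
    (hPT : PT ≤ (3 * M ^ 2) ^ (k - s)) (a1 : 1 ≤ H * E) (a2 : H ≤ M * E)
    (a3 : 2 * s = k → 1 ≤ PS * E ∨ (1 ≤ s ∧ PT ≤ (M ^ 2 * E) * (3 * M ^ 2) ^ (s - 1))) :
    H ^ (2 * s) ≤ PS * (3 ^ k * H ^ k * E) := by
  have hH0 : 0 < H := by linarith
  have h3 : (1 : ℝ) ≤ 3 ^ k := one_le_pow₀ (by norm_num)
  have hHk : 0 < H ^ k := by positivity
  have hPS0 : 0 < PS := by linarith
  have base : ∀ z : ℝ, H ^ k * E * z ≤ PS * (3 ^ k * H ^ k * E) ↔ z ≤ PS * 3 ^ k := by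
    intro z
    constructor
    · intro h
      have h' : (H ^ k * E) * z ≤ (H ^ k * E) * (PS * 3 ^ k) := by linarith
      exact le_of_mul_le_mul_left h' (by positivity)
    · intro h
      calc H ^ k * E * z ≤ H ^ k * E * (PS * 3 ^ k) := mul_le_mul_of_nonneg_left h (by positivity)
        _ = _ := by ring
  rcases lt_trichotomy (2 * s) k with h | h | h
  · have h4 : H ^ (2 * s) ≤ H ^ (k - 1) := pow_le_pow_right₀ hH (by omega)
    have h5 : H ^ (k - 1) ≤ H ^ (k - 1) * (H * E) := le_mul_of_one_le_right (by positivity) a1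
    have h6 : H ^ (k - 1) * (H * E) = H ^ k * E * 1 := by
      rw [mul_one, ← mul_assoc, ← pow_succ]
      congr 2
      omega
    have h7 : H ^ k * E * 1 ≤ PS * (3 ^ k * H ^ k * E) :=
      (base 1).2 (by nlinarith)
    linarith
  · rcases a3 h with h4 | ⟨hs1, h4⟩
    · have h5 : H ^ k ≤ H ^ k * (PS * E) := le_mul_of_one_le_right hHk.le h4
      have h6 : H ^ k * (PS * E) = H ^ k * E * PS := by ring
      have h7 : H ^ k * E * PS ≤ PS * (3 ^ k * H ^ k * E) :=
        (base PS).2 (le_mul_of_one_le_right hPS0.le h3)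
      rw [h]
      linarith
    · have h5 : M ^ 2 * E * (3 * M ^ 2) ^ (s - 1) = E * 3 ^ (s - 1) * M ^ k := by
        rw [mul_pow, ← pow_mul, ← h]
        have : M ^ (2 * s) = M ^ 2 * M ^ (2 * (s - 1)) := by
          rw [← pow_add]
          congr 1
          omega
        rw [this]
        ring
      rw [h5] at h4
      have h6 : M ^ k * 1 ≤ M ^ k * (PS * (E * 3 ^ (s - 1))) := by
        calc M ^ k * 1 = M ^ k := mul_one _
          _ ≤ PS * PT := hPP
          _ ≤ PS * (E * 3 ^ (s - 1) * M ^ k) := mul_le_mul_of_nonneg_left h4 hPS0.le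
          _ = _ := by ring
      have h7 := le_of_mul_le_mul_left h6 (by positivity)
      have h8 : (3 : ℝ) ^ (s - 1) ≤ 3 ^ k := pow_le_pow_right₀ (by norm_num) (by omega)
      have h9 : 1 ≤ PS * (E * 3 ^ k) := by
        refine h7.trans ?_
        gcongr
      rw [h]
      calc H ^ k = H ^ k * 1 := (mul_one _).symm
        _ ≤ H ^ k * (PS * (E * 3 ^ k)) := mul_le_mul_of_nonneg_left h9 hHk.le
        _ = _ := by ring
  · have h4 : M ^ (2 * s - k) ≤ PS * 3 ^ (k - s) := by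
      have h5 : M ^ (2 * (k - s)) * M ^ (2 * s - k) ≤ M ^ (2 * (k - s)) * (PS * 3 ^ (k - s)) := by
        calc M ^ (2 * (k - s)) * M ^ (2 * s - k) = M ^ k := by
              rw [← pow_add]
              congr 1
              omega
          _ ≤ PS * PT := hPP
          _ ≤ PS * (3 * M ^ 2) ^ (k - s) := mul_le_mul_of_nonneg_left hPT hPS0.le
          _ = _ := by
              rw [mul_pow, ← pow_mul]
              ring
      exact le_of_mul_le_mul_left h5 (by positivity)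
    have h5 : H ^ (2 * s - k) ≤ E * M ^ (2 * s - k) := by
      have h6 : H ^ (2 * s - k) ≤ (M * E) ^ (2 * s - k) := pow_le_pow_left₀ hH0.le a2 _
      have h7 : E ^ (2 * s - k) ≤ E := by
        calc E ^ (2 * s - k) ≤ E ^ 1 := pow_le_pow_of_le_one hE0.le hE1 (by omega)
          _ = E := pow_one E
      rw [mul_pow] at h6
      calc H ^ (2 * s - k) ≤ M ^ (2 * s - k) * E ^ (2 * s - k) := h6
        _ ≤ M ^ (2 * s - k) * E := mul_le_mul_of_nonneg_left h7 (by positivity)
        _ = _ := mul_comm _ _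
    have h8 : (3 : ℝ) ^ (k - s) ≤ 3 ^ k := pow_le_pow_right₀ (by norm_num) (by omega)
    calc H ^ (2 * s) = H ^ k * H ^ (2 * s - k) := by
          rw [← pow_add]
          congr 1
          omega
      _ ≤ H ^ k * (E * M ^ (2 * s - k)) := mul_le_mul_of_nonneg_left h5 hHk.le
      _ ≤ H ^ k * (E * (PS * 3 ^ (k - s))) := by
          apply mul_le_mul_of_nonneg_left _ hHk.le
          exact mul_le_mul_of_nonneg_left h4 hE0.le
      _ ≤ H ^ k * (E * (PS * 3 ^ k)) := by gcongr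
      _ = _ := by ring

theorem prod_bound (k : ℕ) (A : Fin k → ℕ) (h : ℕ) (hA : ∀ j, 1 ≤ A j) :
    ∏ j, ((h : ℝ) / (A j : ℕ) + 1) ≤ 2 ^ k *
      ((h : ℝ) ^ (univ.filter (fun j => A j ≤ h)).card /
        ∏ j ∈ univ.filter (fun j => A j ≤ h), (A j : ℝ)) := by
  have h1 : ∀ j, (h : ℝ) / (A j : ℕ) + 1 ≤ 2 * (if A j ≤ h then (h : ℝ) / A j else 1) := by
    intro j
    have hj : (0 : ℝ) < A j := by exact_mod_cast hA j
    split_ifs with hc
    · have : (1 : ℝ) ≤ h / A j := by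
        rw [one_le_div hj]
        exact_mod_cast hc
      linarith
    · have : (h : ℝ) / A j ≤ 1 := by
        rw [div_le_one hj]
        exact_mod_cast (not_le.1 hc).le
      linarith
  calc ∏ j, ((h : ℝ) / (A j : ℕ) + 1) ≤ ∏ j, 2 * (if A j ≤ h then (h : ℝ) / A j else 1) :=
        prod_le_prod (fun j _ => by positivity) (fun j _ => h1 j)
    _ = _ := by
        rw [prod_mul_distrib, prod_const, card_univ, Fintype.card_fin, ← prod_filter,
          prod_div_distrib, prod_const]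

/-- the core for `Fin k` -/
theorem core3b (h1 : S_Gcd) (h2 : S_Wt) (k : ℕ) (hk : 2 ≤ k) (ε α η : ℝ) (hε : 0 < ε) (hα : 0 < α)
    (hη : 0 < η) : ∃ c C : ℝ, 0 < c ∧ 0 < C ∧ ∀ (N h : ℕ) (x : Fin k → ℕ), 1 ≤ N →
      (N : ℝ) ^ ε ≤ h → (h : ℝ) ≤ (N : ℝ) ^ (1 - ε) → (∀ i, x i ∈ Ico N (2 * N)) →
      ∀ i j : Fin k, (i : ℕ) = 0 → (j : ℕ) = 1 → ∀ F : Finset (Fin k → ℕ),
      (∀ n ∈ F, (∀ a, n a ∈ Ioc (x a) (x a + h)) ∧ (∀ a, Squarefree (n a)) ∧ IsSquare (∏ a, n a) ∧
        (N : ℝ) ^ α ≤ (Nat.gcd (n i) (n j) : ℕ) ∧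
        ((Nat.gcd (n i) (n j) : ℕ) : ℝ) ≤ (N : ℝ) ^ (1 - η)) →
      (F.card : ℝ) ≤ C * √(h : ℝ) ^ k * (N : ℝ) ^ (-c) := by
  classical
  obtain ⟨c, hcd⟩ : ∃ c : ℝ, c = min (ε / 2) (min α η) / 2 := ⟨_, rfl⟩
  have hc0 : 0 < c := by
    rw [hcd]
    have : 0 < min (ε / 2) (min α η) := lt_min (by linarith) (lt_min hα hη)
    linarith
  have hcε : 2 * c ≤ ε / 2 := by
    rw [hcd]
    have := min_le_left (ε / 2) (min α η)
    linarith
  have hcα : 2 * c ≤ α := by
    rw [hcd]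
    have := (min_le_right (ε / 2) (min α η)).trans (min_le_left _ _)
    linarith
  have hcη : 2 * c ≤ η := by
    rw [hcd]
    have := (min_le_right (ε / 2) (min α η)).trans (min_le_right _ _)
    linarith
  have hk0 : (0 : ℝ) < k := by
    have : 0 < k := by omega
    exact_mod_cast this
  obtain ⟨d, hd⟩ : ∃ d : ℝ, d = c / (k * k) := ⟨_, rfl⟩
  have hd0 : 0 < d := by
    rw [hd]
    positivity
  obtain ⟨C1, hC1, hdiv⟩ := Pool.Agent.H358R2.div_bound hd0
  refine ⟨c, 6 ^ k * C1 ^ k * 3 ^ c, hc0, by positivity, ?_⟩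
  intro N h x hN hh1 hh2 hx i j hi hj F hF
  have hN1 : (1 : ℝ) ≤ N := by exact_mod_cast hN
  have hN0 : (0 : ℝ) < N := by linarith
  have hhN : (h : ℝ) ≤ N := by
    refine hh2.trans ?_
    calc (N : ℝ) ^ (1 - ε) ≤ (N : ℝ) ^ (1 : ℝ) :=
          Real.rpow_le_rpow_of_exponent_le hN1 (by linarith)
      _ = N := Real.rpow_one _
  have hhN' : h ≤ N := by exact_mod_cast hhN
  have hh1' : (1 : ℝ) ≤ h := (Real.one_le_rpow hN1 hε.le).trans hh1
  have hhpos : 1 ≤ h := by exact_mod_cast hh1'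
  have hh0 : (0 : ℝ) < h := by linarith
  obtain ⟨H, hH⟩ : ∃ H : ℝ, H = √(h : ℝ) := ⟨_, rfl⟩
  obtain ⟨M, hM⟩ : ∃ M : ℝ, M = √(N : ℝ) := ⟨_, rfl⟩
  obtain ⟨E, hE⟩ : ∃ E : ℝ, E = (N : ℝ) ^ (-(2 * c)) := ⟨_, rfl⟩
  have hH1 : 1 ≤ H := by
    rw [hH]
    exact Real.one_le_sqrt.2 hh1'
  have hM0 : 0 < M := by
    rw [hM]
    exact Real.sqrt_pos.2 hN0
  have hH2 : H ^ 2 = h := by rw [hH, Real.sq_sqrt hh0.le]
  have hM2 : M ^ 2 = N := by rw [hM, Real.sq_sqrt hN0.le]
  have hE0 : 0 < E := by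
    rw [hE]
    positivity
  have hE1 : E ≤ 1 := by
    rw [hE]
    exact Real.rpow_le_one_of_one_le_of_nonpos hN1 (by linarith)
  have a1 : 1 ≤ H * E := by
    have h3 : (N : ℝ) ^ (ε / 2) ≤ H := by
      rw [hH, Real.sqrt_eq_rpow]
      calc (N : ℝ) ^ (ε / 2) = ((N : ℝ) ^ ε) ^ (1 / 2 : ℝ) := by
            rw [← Real.rpow_mul hN0.le]
            congr 1
            ring
        _ ≤ (h : ℝ) ^ (1 / 2 : ℝ) := Real.rpow_le_rpow (by positivity) hh1 (by norm_num)
    calc (1 : ℝ) ≤ (N : ℝ) ^ (ε / 2 + -(2 * c)) := Real.one_le_rpow hN1 (by linarith)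
      _ = (N : ℝ) ^ (ε / 2) * E := by rw [Real.rpow_add hN0, hE]
      _ ≤ H * E := mul_le_mul_of_nonneg_right h3 hE0.le
  have a2 : H ≤ M * E := by
    have h3 : H ≤ (N : ℝ) ^ ((1 - ε) / 2) := by
      rw [hH, Real.sqrt_eq_rpow]
      calc (h : ℝ) ^ (1 / 2 : ℝ) ≤ ((N : ℝ) ^ (1 - ε)) ^ (1 / 2 : ℝ) :=
            Real.rpow_le_rpow hh0.le hh2 (by norm_num)
        _ = (N : ℝ) ^ ((1 - ε) / 2) := by
            rw [← Real.rpow_mul hN0.le]
            congr 1
            ring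
    have h4 : M * E = (N : ℝ) ^ ((1 : ℝ) / 2 + -(2 * c)) := by
      rw [Real.rpow_add hN0, ← hE, hM, Real.sqrt_eq_rpow]
    rw [h4]
    exact h3.trans (Real.rpow_le_rpow_of_exponent_le hN1 (by linarith))
  -- the gcds
  obtain ⟨A, hA⟩ : ∃ A : (Fin k → ℕ) → Fin k → ℕ, ∀ n a, A n a =
      Nat.gcd (n a) (∏ b ∈ univ.filter (fun b => b < a), n b) :=
    ⟨fun n a => Nat.gcd (n a) (∏ b ∈ univ.filter (fun b => b < a), n b), fun n a => rfl⟩
  have hbound : ∀ n ∈ F, ∏ a, ((h : ℝ) / (A n a : ℕ) + 1) ≤ 6 ^ k * H ^ k * E := by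
    intro n hn
    obtain ⟨hn1, hn2, hn3, hn4, hn5⟩ := hF n hn
    have hnpos : ∀ a, N < n a ∧ n a ≤ 3 * N := by
      intro a
      have h3 := mem_Ioc.1 (hn1 a)
      have h4 := mem_Ico.1 (hx a)
      omega
    have hA1 : ∀ a, 1 ≤ A n a := by
      intro a
      rw [hA]
      apply Nat.gcd_pos_of_pos_left
      have := (hnpos a).1
      omega
    have hA3 : ∀ a, (A n a : ℝ) ≤ 3 * M ^ 2 := by
      intro a
      have h3 : A n a ≤ n a := by
        rw [hA]
        apply Nat.gcd_le_left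
        have := (hnpos a).1
        omega
      have h4 : (A n a : ℝ) ≤ ((3 * N : ℕ) : ℝ) := by exact_mod_cast h3.trans (hnpos a).2
      rw [hM2]
      push_cast at h4
      exact h4
    obtain ⟨S, hS⟩ : ∃ S : Finset (Fin k), S = univ.filter (fun a => A n a ≤ h) := ⟨_, rfl⟩
    obtain ⟨PS, hPS⟩ : ∃ PS : ℝ, PS = ∏ a ∈ S, (A n a : ℝ) := ⟨_, rfl⟩
    obtain ⟨PT, hPT⟩ : ∃ PT : ℝ, PT = ∏ a ∈ Sᶜ, (A n a : ℝ) := ⟨_, rfl⟩
    have hone : ∀ a, (1 : ℝ) ≤ A n a := fun a => by exact_mod_cast hA1 a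
    have hPS1 : 1 ≤ PS := by
      rw [hPS]
      exact Finset.one_le_prod (fun a _ => hone a)
    have hPT1 : 1 ≤ PT := by
      rw [hPT]
      exact Finset.one_le_prod (fun a _ => hone a)
    have hprod : PS * PT = ∏ a, (A n a : ℝ) := by
      rw [hPS, hPT, prod_mul_prod_compl]
    have hPP : M ^ k ≤ PS * PT := by
      have h3 := h1 k n hn2 hn3
      have h4 : (N : ℝ) ^ k ≤ (∏ a, (A n a : ℝ)) ^ 2 := by
        calc (N : ℝ) ^ k = ∏ _a : Fin k, (N : ℝ) := by rw [prod_const, card_univ, Fintype.card_fin]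
          _ ≤ ∏ a, (n a : ℝ) := prod_le_prod (fun _ _ => hN0.le) (fun a _ => by
              exact_mod_cast (hnpos a).1.le)
          _ = ((∏ a, n a : ℕ) : ℝ) := by push_cast; rfl
          _ ≤ (((∏ a, Nat.gcd (n a) (∏ b ∈ univ.filter (fun b => b < a), n b)) ^ 2 : ℕ) : ℝ) := by
              exact_mod_cast h3
          _ = _ := by
              push_cast
              congr 1
              apply prod_congr rfl
              intro a _
              rw [hA]
      rw [hprod]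
      have h5 : (M ^ k) ^ 2 ≤ (∏ a, (A n a : ℝ)) ^ 2 := by
        rw [← pow_mul, mul_comm k 2, pow_mul, hM2]
        exact h4
      exact le_of_sq_le_sq_pos h5 (by
        rw [← hprod]
        positivity)
    have hcompl : (Sᶜ).card = k - S.card := by
      rw [card_compl, Fintype.card_fin]
    have hSk : S.card ≤ k := by
      have := card_le_univ S
      rwa [Fintype.card_fin] at this
    have hPT2 : PT ≤ (3 * M ^ 2) ^ (k - S.card) := by
      rw [hPT, ← hcompl, ← prod_const]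
      exact prod_le_prod (fun a _ => by positivity) (fun a _ => hA3 a)
    have hAj : A n j = Nat.gcd (n i) (n j) := by
      rw [hA]
      have h3 : univ.filter (fun b : Fin k => b < j) = {i} := by
        ext b
        rw [mem_filter, mem_singleton, Fin.lt_def, Fin.ext_iff, hj, hi]
        constructor
        · intro h4
          omega
        · intro h4
          exact ⟨mem_univ _, by omega⟩
      rw [h3, prod_singleton, Nat.gcd_comm]
    have a3 : 2 * S.card = k → 1 ≤ PS * E ∨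
        (1 ≤ S.card ∧ PT ≤ (M ^ 2 * E) * (3 * M ^ 2) ^ (S.card - 1)) := by
      intro h2s
      by_cases hjS : j ∈ S
      · left
        have h3 : (N : ℝ) ^ α ≤ PS := by
          rw [hPS, ← mul_prod_erase S (fun a => (A n a : ℝ)) hjS, hAj]
          have h4 : 1 ≤ ∏ a ∈ S.erase j, (A n a : ℝ) := Finset.one_le_prod (fun a _ => hone a)
          have h5 : (0 : ℝ) ≤ (Nat.gcd (n i) (n j) : ℕ) := Nat.cast_nonneg _
          nlinarith
        calc (1 : ℝ) ≤ (N : ℝ) ^ (α + -(2 * c)) := Real.one_le_rpow hN1 (by linarith)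
          _ = (N : ℝ) ^ α * E := by rw [Real.rpow_add hN0, hE]
          _ ≤ PS * E := mul_le_mul_of_nonneg_right h3 hE0.le
      · right
        refine ⟨by omega, ?_⟩
        have hjT : j ∈ Sᶜ := mem_compl.2 hjS
        rw [hPT, ← mul_prod_erase Sᶜ (fun a => (A n a : ℝ)) hjT, hAj]
        have h4 : ((Sᶜ).erase j).card = S.card - 1 := by
          rw [card_erase_of_mem hjT, hcompl]
          omega
        have h5 : ∏ a ∈ (Sᶜ).erase j, (A n a : ℝ) ≤ (3 * M ^ 2) ^ (S.card - 1) := by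
          rw [← h4, ← prod_const]
          exact prod_le_prod (fun a _ => by positivity) (fun a _ => hA3 a)
        have h6 : ((Nat.gcd (n i) (n j) : ℕ) : ℝ) ≤ M ^ 2 * E := by
          refine hn5.trans ?_
          rw [hM2, hE]
          calc (N : ℝ) ^ (1 - η) ≤ (N : ℝ) ^ (1 + -(2 * c)) :=
                Real.rpow_le_rpow_of_exponent_le hN1 (by linarith)
            _ = N * (N : ℝ) ^ (-(2 * c)) := by rw [Real.rpow_add hN0, Real.rpow_one]
        exact mul_le_mul h6 h5 (prod_nonneg (fun a _ => by positivity)) (by positivity)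
    have h4 := four_cases k S.card hSk H M E PS PT hH1 hM0 hE0 hE1 hPS1 (by linarith) hPP hPT2 a1 a2 a3
    have h5 := prod_bound k (A n) h hA1
    rw [← hS, ← hPS] at h5
    have h6 : (h : ℝ) ^ S.card = H ^ (2 * S.card) := by rw [pow_mul, hH2]
    rw [h6] at h5
    have h7 : H ^ (2 * S.card) / PS ≤ 3 ^ k * H ^ k * E := by
      rw [div_le_iff₀ (by linarith)]
      linarith
    calc ∏ a, ((h : ℝ) / (A n a : ℕ) + 1) ≤ 2 ^ k * (H ^ (2 * S.card) / PS) := h5
      _ ≤ 2 ^ k * (3 ^ k * H ^ k * E) := mul_le_mul_of_nonneg_left h7 (by positivity)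
      _ = (2 * 3) ^ k * H ^ k * E := by
          rw [mul_pow]
          ring
      _ = _ := by norm_num
  -- the weighted count
  obtain ⟨D, hD⟩ : ∃ D : ℝ, D = C1 * ((3 * N : ℝ) ^ k) ^ d := ⟨_, rfl⟩
  have hC10 : 0 < C1 := by linarith
  have hD0 : 0 < D := by
    rw [hD]
    positivity
  have hW := h2 k x h D hhpos (by
    intro n hn a
    have hn' : ∀ b, 1 ≤ n b ∧ n b ≤ 3 * N := by
      intro b
      have h3 := mem_Ioc.1 (Fintype.mem_piFinset.1 hn b)
      have h4 := mem_Ico.1 (hx b)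
      omega
    have h0 : ∏ b ∈ univ.filter (fun b => b < a), n b ≠ 0 := by
      rw [prod_ne_zero_iff]
      intro b _
      have := (hn' b).1
      omega
    refine (hdiv _ h0).trans ?_
    rw [hD]
    apply mul_le_mul_of_nonneg_left _ hC10.le
    apply Real.rpow_le_rpow (Nat.cast_nonneg _) _ hd0.le
    have h3 : ∏ b ∈ univ.filter (fun b => b < a), n b ≤ (3 * N) ^ k := by
      calc ∏ b ∈ univ.filter (fun b => b < a), n b ≤
            ∏ _b ∈ univ.filter (fun b : Fin k => b < a), (3 * N) :=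
            prod_le_prod' (fun b _ => (hn' b).2)
        _ = (3 * N) ^ (univ.filter (fun b : Fin k => b < a)).card := by rw [prod_const]
        _ ≤ (3 * N) ^ k := by
            apply Nat.pow_le_pow_right (by omega)
            have := card_le_univ (univ.filter (fun b : Fin k => b < a))
            rwa [Fintype.card_fin] at this
    exact_mod_cast h3)
  have hFsub : F ⊆ Fintype.piFinset (fun a => Ioc (x a) (x a + h)) := by
    intro n hn
    exact Fintype.mem_piFinset.2 (hF n hn).1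
  have hBd0 : 0 < 6 ^ k * H ^ k * E := by positivity
  have hcnt : (F.card : ℝ) ≤ 6 ^ k * H ^ k * E * D ^ k := by
    calc (F.card : ℝ) = ∑ _n ∈ F, (1 : ℝ) := by simp
      _ ≤ ∑ n ∈ F, 6 ^ k * H ^ k * E * ∏ a, ((h : ℝ) / (A n a : ℕ) + 1)⁻¹ := by
          apply sum_le_sum
          intro n hn
          rw [prod_inv_distrib, ← div_eq_mul_inv, one_le_div]
          · exact hbound n hn
          · apply prod_pos
            intro a _
            positivity
      _ ≤ ∑ n ∈ Fintype.piFinset (fun a => Ioc (x a) (x a + h)),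
          6 ^ k * H ^ k * E * ∏ a, ((h : ℝ) / (A n a : ℕ) + 1)⁻¹ := by
          apply sum_le_sum_of_subset_of_nonneg hFsub
          intro n _ _
          have : 0 ≤ ∏ a, ((h : ℝ) / (A n a : ℕ) + 1)⁻¹ := prod_nonneg (fun a _ => by positivity)
          positivity
      _ = 6 ^ k * H ^ k * E * ∑ n ∈ Fintype.piFinset (fun a => Ioc (x a) (x a + h)),
          ∏ a, ((h : ℝ) / (A n a : ℕ) + 1)⁻¹ := by rw [mul_sum]
      _ ≤ _ := by
          apply mul_le_mul_of_nonneg_left _ hBd0.le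
          simp only [hA]
          exact hW
  have hDk : D ^ k = C1 ^ k * 3 ^ c * (N : ℝ) ^ c := by
    rw [hD, mul_pow, mul_assoc]
    congr 1
    rw [← Real.mul_rpow (by norm_num) hN0.le, ← Real.rpow_natCast, ← Real.rpow_natCast,
      ← Real.rpow_mul (by positivity), ← Real.rpow_mul (by positivity)]
    congr 1
    rw [hd]
    field_simp
  rw [← hH]
  calc (F.card : ℝ) ≤ 6 ^ k * H ^ k * E * D ^ k := hcnt
    _ = 6 ^ k * C1 ^ k * 3 ^ c * H ^ k * (E * (N : ℝ) ^ c) := by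
        rw [hDk]
        ring
    _ = 6 ^ k * C1 ^ k * 3 ^ c * H ^ k * (N : ℝ) ^ (-c) := by
        congr 1
        rw [hE, ← Real.rpow_add hN0]
        congr 1
        ring

theorem t_Cnt (h1 : S_Gcd) (h2 : S_Wt) : S_Cnt := by
  classical
  intro ι _ ε α η hε hα hη
  rcases Nat.lt_or_ge (Fintype.card ι) 2 with hk | hk
  · refine ⟨1, 1, one_pos, one_pos, ?_⟩
    intro N h x _ _ _ _ i j hij
    exfalso
    have : Fintype.card ι ≤ 1 := by omega
    exact hij (Fintype.card_le_one_iff.1 this i j)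
  · obtain ⟨c, C, hc, hC, H⟩ := core3b h1 h2 (Fintype.card ι) hk ε α η hε hα hη
    refine ⟨c, C, hc, hC, ?_⟩
    intro N h x hN hh1 hh2 hx i j hij
    -- an equivalence with `Fin k`
    obtain ⟨e, hei, hej⟩ : ∃ e : ι ≃ Fin (Fintype.card ι), (e i : ℕ) = 0 ∧ (e j : ℕ) = 1 := by
      obtain ⟨e0⟩ := Fintype.truncEquivFin ι |>.nonempty
      let z0 : Fin (Fintype.card ι) := ⟨0, by omega⟩
      let z1 : Fin (Fintype.card ι) := ⟨1, by omega⟩
      have h01 : z0 ≠ z1 := by
        intro h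
        have := congrArg Fin.val h
        simp [z0, z1] at this
      let e1 : ι ≃ Fin (Fintype.card ι) := e0.trans (Equiv.swap (e0 i) z0)
      have he1 : e1 i = z0 := by
        simp [e1]
      have he1j : e1 j ≠ z0 := by
        intro h
        exact hij (e1.injective (he1.trans h.symm))
      refine ⟨e1.trans (Equiv.swap (e1 j) z1), ?_, ?_⟩
      · rw [Equiv.trans_apply, he1, Equiv.swap_apply_of_ne_of_ne he1j.symm h01]
      · rw [Equiv.trans_apply, Equiv.swap_apply_left]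
    obtain ⟨G, hG⟩ : ∃ G : Finset (ι → ℕ), G = (SqT x h).filter fun n =>
        (N : ℝ) ^ α ≤ (Nat.gcd (n i) (n j) : ℕ) ∧
        ((Nat.gcd (n i) (n j) : ℕ) : ℝ) ≤ (N : ℝ) ^ (1 - η) := ⟨_, rfl⟩
    have hcard : G.card = (G.image (fun n : ι → ℕ => n ∘ e.symm)).card := by
      rw [card_image_of_injective]
      intro n m hnm
      funext a
      have := congrFun hnm (e a)
      simpa using this
    have h3 := H N h (x ∘ e.symm) hN hh1 hh2 (fun a => hx _) (e i) (e j) hei hej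
      (G.image (fun n : ι → ℕ => n ∘ e.symm)) (by
      intro n' hn'
      rw [mem_image] at hn'
      obtain ⟨n, hn, rfl⟩ := hn'
      rw [hG, mem_filter] at hn
      obtain ⟨hn1, hn2, hn3⟩ := hn
      unfold SqT at hn1
      rw [mem_filter, Fintype.mem_piFinset] at hn1
      obtain ⟨hp, hs, hq⟩ := hn1
      refine ⟨fun a => hp _, fun a => hs _, ?_, ?_, ?_⟩
      · have : ∏ a, (n ∘ e.symm) a = ∏ a, n a := Equiv.prod_comp e.symm n
        rw [this]
        exact hq
      · simpa using hn2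
      · simpa using hn3)
    rw [← hcard, hG] at h3
    convert h3 using 3

end Pool.Agent.Q63.QT
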