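import Pool.Agent.Q152.QT.Stm

/-!
# Project QT (helper152): job QT4
-/

set_option autoImplicit false

namespace Pool.Agent.Q63.QT

open Pool.Agent.Q152.QT Finset

theorem t_Odd : S_Odd := by
  classical
  intro ι _ n hsq hn1 hS hE
  unfold EvenT at hE
  push Not at hE
  obtain ⟨v, hv⟩ := hE
  have hcardv : Nat.card {i : ι // n i = v} = (univ.filter (fun i => n i = v)).card := by
    rw [Nat.card_eq_fintype_card, Fintype.card_subtype]
  rw [hcardv] at hv
  have hne : (univ.filter (fun i => n i = v)).Nonempty := by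
    rw [nonempty_iff_ne_empty]
    intro h
    rw [h, card_empty] at hv
    exact hv ⟨0, rfl⟩
  obtain ⟨i, hi⟩ := hne
  have hiv : n i = v := (mem_filter.1 hi).2
  have hvsq : Squarefree v := hiv ▸ hsq i
  have hv1 : 1 < v := hiv ▸ hn1 i
  -- a prime factor of v divides another term
  have hprime : ∀ q : ℕ, q.Prime → q ∣ v → ∃ j, n j ≠ v ∧ q ∣ n j := by
    intro q hq hqv
    by_contra hcon
    push Not at hcon
    have h0 : ∀ j, n j ≠ 0 := fun j => (hsq j).ne_zero
    have h1 : (∏ j, n j).factorization q = ∑ j, (n j).factorization q := by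
      rw [Nat.factorization_prod (fun j _ => h0 j)]
      simp
    have h2 : ∀ j, (n j).factorization q = if n j = v then 1 else 0 := by
      intro j
      split_ifs with h
      · have h3 : (n j).factorization q ≤ 1 := (hsq j).natFactorization_le_one q
        have h4 : 1 ≤ (n j).factorization q :=
          (hq.dvd_iff_one_le_factorization (h0 j)).1 (h ▸ hqv)
        omega
      · exact Nat.factorization_eq_zero_of_not_dvd (hcon j h)
    have h3 : ∑ j, (n j).factorization q = (univ.filter (fun i => n i = v)).card := by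
      rw [card_filter]
      exact sum_congr rfl (fun j _ => h2 j)
    obtain ⟨r, hr⟩ := hS
    have hr0 : r ≠ 0 := by
      intro h
      rw [h, mul_zero] at hr
      exact (prod_ne_zero_iff.2 (fun j _ => h0 j)) hr
    have h4 : (∏ j, n j).factorization q = r.factorization q + r.factorization q := by
      rw [hr, Nat.factorization_mul hr0 hr0]
      rfl
    exact hv ⟨r.factorization q, by rw [← h3, ← h1, h4]⟩
  obtain ⟨J, hJ⟩ : ∃ J : Finset ι, J = univ.filter (fun j => n j ≠ v) := ⟨_, rfl⟩
  have hdvd : v ∣ ∏ j ∈ J, Nat.gcd v (n j) := by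
    conv_lhs => rw [← Nat.prod_primeFactors_of_squarefree hvsq]
    apply Finset.prod_primes_dvd
    · intro q hq
      exact (Nat.prime_of_mem_primeFactors hq).prime
    · intro q hq
      obtain ⟨j, hj1, hj2⟩ := hprime q (Nat.prime_of_mem_primeFactors hq)
        (Nat.dvd_of_mem_primeFactors hq)
      have hjJ : j ∈ J := by
        rw [hJ, mem_filter]
        exact ⟨mem_univ _, hj1⟩
      exact (Nat.dvd_gcd (Nat.dvd_of_mem_primeFactors hq) hj2).trans (dvd_prod_of_mem _ hjJ)
  have hJne : J.Nonempty := by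
    obtain ⟨q, hq, hqv⟩ := Nat.exists_prime_and_dvd hv1.ne'
    obtain ⟨j, hj1, -⟩ := hprime q hq hqv
    refine ⟨j, ?_⟩
    rw [hJ, mem_filter]
    exact ⟨mem_univ _, hj1⟩
  obtain ⟨j, hj, hmax⟩ := exists_max_image J (fun j => Nat.gcd v (n j)) hJne
  have hjv : n j ≠ v := by
    rw [hJ, mem_filter] at hj
    exact hj.2
  refine ⟨i, j, ?_, ?_⟩
  · rw [hiv]
    exact hjv.symm
  · rw [hiv]
    have hg : 0 < Nat.gcd v (n j) := Nat.gcd_pos_of_pos_left _ (by omega)
    calc v ≤ ∏ j ∈ J, Nat.gcd v (n j) := by
          apply Nat.le_of_dvd _ hdvd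
          apply prod_pos
          intro j _
          exact Nat.gcd_pos_of_pos_left _ (by omega)
      _ ≤ ∏ _j ∈ J, Nat.gcd v (n j) := prod_le_prod' hmax
      _ = (Nat.gcd v (n j)) ^ J.card := by rw [prod_const]
      _ ≤ (Nat.gcd v (n j)) ^ Fintype.card ι := by
          apply Nat.pow_le_pow_right hg
          exact card_le_univ J

end Pool.Agent.Q63.QT
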