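import Pool.Agent.Q152.QT.Stm
import Pool.Agent.Q163.CL.Var

/-!
# Project QT (helper152): job QT7
-/

set_option autoImplicit false

namespace Pool.Agent.Q63.QT

open Pool.Agent.Q152.QT Finset

theorem VW_card (x h : ℕ) : Pool.Agent.Q163.CL.VW x h = ((Sf x h).card : ℝ) := by
  unfold Pool.Agent.Q163.CL.VW Sf Pool.Agent.Q163.CL.Iw
  rw [card_filter]
  push_cast
  apply sum_congr rfl
  intro n _
  rw [Pool.Agent.Q163.GC.mu_sq]

theorem Sf_le (x h : ℕ) : (Sf x h).card ≤ h := by
  unfold Sf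
  refine (card_filter_le _ _).trans ?_
  rw [Nat.card_Ioc]
  omega

theorem Ek_zero (A : Finset ℕ) : Ek 0 A = 1 := by
  classical
  unfold Ek
  rw [card_eq_one]
  refine ⟨fun i => i.elim0, ?_⟩
  ext n
  rw [mem_filter, mem_singleton]
  constructor
  · intro _
    funext i
    exact i.elim0
  · rintro rfl
    refine ⟨Fintype.mem_piFinset.2 (fun i => i.elim0), ?_⟩
    intro v
    have : Nat.card {i : Fin 0 // (fun i : Fin 0 => (i.elim0 : ℕ)) i = v} = 0 := by
      rw [Nat.card_eq_fintype_card]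
      simp
    rw [this]
    exact ⟨0, rfl⟩

theorem t_Mean (hEk : S_Ek) : S_Mean := by
  intro k
  have hκ0 : 0 < 6 / Real.pi ^ 2 := by positivity
  have hκ1 : 6 / Real.pi ^ 2 ≤ 1 := by
    rw [div_le_one (by positivity)]
    nlinarith [Real.pi_gt_three]
  obtain ⟨κ, hκ⟩ : ∃ κ : ℝ, κ = 6 / Real.pi ^ 2 := ⟨_, rfl⟩
  rw [← hκ] at hκ0 hκ1 ⊢
  obtain ⟨C, hC0, hC⟩ := hEk k
  refine ⟨C + gm k * (9 * k), by positivity, fun N h hh hhN => ?_⟩
  have hN0 : (0 : ℝ) < N := by
    have : 0 < N := by omega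
    exact_mod_cast this
  obtain ⟨s, hs⟩ : ∃ s : ℝ, s = √(h : ℝ) := ⟨_, rfl⟩
  have hh0 : (0 : ℝ) < h := by exact_mod_cast hh
  have hs0 : 0 < s := by
    rw [hs]
    exact Real.sqrt_pos.2 hh0
  have hs2 : s ^ 2 = h := by
    rw [hs, Real.sq_sqrt hh0.le]
  rw [← hs]
  rcases Nat.eq_zero_or_pos k with hk | hk
  · subst hk
    have h1 : (∑ x ∈ Ico N (2 * N), (Ek 0 (Sf x h) : ℝ)) / N = 1 := by
      have h2 : ∀ x ∈ Ico N (2 * N), (Ek 0 (Sf x h) : ℝ) = 1 := fun x _ => by
        rw [Ek_zero]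
        simp
      rw [sum_congr rfl h2, sum_const, Nat.card_Ico, nsmul_eq_mul, mul_one]
      have h3 : 2 * N - N = N := by omega
      rw [h3, div_self hN0.ne']
    rw [h1]
    have h2 : gm 0 = 1 := by decide
    rw [h2]
    simp
    positivity
  have hpow : s ^ k / s = s ^ (k - 1) := by
    rw [div_eq_iff hs0.ne', ← pow_succ]
    congr 1
    omega
  have hmain : ∀ x ∈ Ico N (2 * N), |(Ek k (Sf x h) : ℝ) - gm k * √(κ * h) ^ k| ≤
      C * s ^ (k - 1) + gm k * k * s ^ (k - 2) * |Pool.Agent.Q163.CL.VW x h - κ * h| := by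
    intro x _
    obtain ⟨S, hS⟩ : ∃ S : ℝ, S = ((Sf x h).card : ℝ) := ⟨_, rfl⟩
    have hS0 : 0 ≤ S := hS ▸ Nat.cast_nonneg _
    have hSh : S ≤ h := by
      rw [hS]
      exact_mod_cast Sf_le x h
    have h1 := hC (Sf x h)
    rw [← hS] at h1
    rw [VW_card, ← hS]
    have h2 : C * √S ^ (k - 1) ≤ C * s ^ (k - 1) := by
      apply mul_le_mul_of_nonneg_left _ hC0
      apply pow_le_pow_left₀ (Real.sqrt_nonneg _)
      rw [hs]
      exact Real.sqrt_le_sqrt hSh
    have h3 : |(gm k : ℝ) * √S ^ k - gm k * √(κ * h) ^ k| ≤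
        gm k * k * s ^ (k - 2) * |S - κ * h| := by
      rcases Nat.even_or_odd k with hev | hod
      · obtain ⟨j, hj⟩ := hev
        have hj0 : 0 < j := by omega
        have e1 : √S ^ k = S ^ j := by
          rw [hj, ← two_mul, pow_mul, Real.sq_sqrt hS0]
        have e2 : √(κ * h) ^ k = (κ * h) ^ j := by
          rw [hj, ← two_mul, pow_mul, Real.sq_sqrt (by positivity)]
        rw [e1, e2, ← mul_sub, abs_mul, abs_of_nonneg (Nat.cast_nonneg (α := ℝ) (gm k))]
        have h4 := abs_pow_sub_pow_le S (κ * h) j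
        have h5 : max |S| |κ * (h : ℝ)| ^ (j - 1) ≤ (h : ℝ) ^ (j - 1) := by
          apply pow_le_pow_left₀ (le_max_of_le_left (abs_nonneg _))
          apply max_le
          · rw [abs_of_nonneg hS0]
            exact hSh
          · rw [abs_of_nonneg (by positivity)]
            nlinarith
        have h6 : (h : ℝ) ^ (j - 1) = s ^ (k - 2) := by
          rw [← hs2, ← pow_mul]
          congr 1
          omega
        rw [h6] at h5
        have h7 : (j : ℝ) ≤ k := by
          have : j ≤ k := by omega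
          exact_mod_cast this
        calc (gm k : ℝ) * |S ^ j - (κ * h) ^ j| ≤
              gm k * (|S - κ * h| * j * max |S| |κ * (h : ℝ)| ^ (j - 1)) :=
              mul_le_mul_of_nonneg_left h4 (Nat.cast_nonneg _)
          _ ≤ gm k * (|S - κ * h| * k * s ^ (k - 2)) := by
              apply mul_le_mul_of_nonneg_left _ (Nat.cast_nonneg _)
              apply mul_le_mul _ h5 (by positivity) (by positivity)
              exact mul_le_mul_of_nonneg_left h7 (abs_nonneg _)
          _ = gm k * k * s ^ (k - 2) * |S - κ * h| := by ring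
      · have : gm k = 0 := by
          unfold gm
          rw [if_neg (Nat.not_even_iff_odd.2 hod)]
        rw [this]
        simp
    calc |(Ek k (Sf x h) : ℝ) - gm k * √(κ * h) ^ k| =
          |((Ek k (Sf x h) : ℝ) - gm k * √S ^ k) + (gm k * √S ^ k - gm k * √(κ * h) ^ k)| := by
          congr 1
          ring
      _ ≤ _ := (abs_add_le _ _).trans (add_le_add (h1.trans h2) h3)
  have hcard : ((Ico N (2 * N)).card : ℝ) = N := by
    rw [Nat.card_Ico]
    have h3 : 2 * N - N = N := by omega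
    rw [h3]
  have hsumV := Pool.Agent.Q163.CL.sum_VW N h hh hhN
  rw [← hκ, ← hs] at hsumV
  have e3 : (∑ x ∈ Ico N (2 * N), (Ek k (Sf x h) : ℝ)) / N - gm k * √(κ * h) ^ k =
      (∑ x ∈ Ico N (2 * N), ((Ek k (Sf x h) : ℝ) - gm k * √(κ * h) ^ k)) / N := by
    rw [sum_sub_distrib, sum_const, nsmul_eq_mul, hcard]
    field_simp
  rw [e3, abs_div, abs_of_pos hN0, div_le_iff₀ hN0]
  have hcoef : 0 ≤ (gm k : ℝ) * k * s ^ (k - 2) := by positivity
  calc |∑ x ∈ Ico N (2 * N), ((Ek k (Sf x h) : ℝ) - gm k * √(κ * h) ^ k)| ≤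
        ∑ x ∈ Ico N (2 * N), |(Ek k (Sf x h) : ℝ) - gm k * √(κ * h) ^ k| := abs_sum_le_sum_abs _ _
    _ ≤ ∑ x ∈ Ico N (2 * N), (C * s ^ (k - 1) +
        gm k * k * s ^ (k - 2) * |Pool.Agent.Q163.CL.VW x h - κ * h|) := sum_le_sum hmain
    _ = N * (C * s ^ (k - 1)) + gm k * k * s ^ (k - 2) *
        ∑ x ∈ Ico N (2 * N), |Pool.Agent.Q163.CL.VW x h - κ * h| := by
        rw [sum_add_distrib, sum_const, nsmul_eq_mul, hcard, ← mul_sum]
    _ ≤ N * (C * s ^ (k - 1)) + gm k * k * s ^ (k - 2) * (9 * N * s) := by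
        have := mul_le_mul_of_nonneg_left hsumV hcoef
        linarith
    _ ≤ (C + gm k * (9 * k)) * s ^ k / s * N := by
        rw [mul_div_assoc, hpow]
        rcases Nat.lt_or_ge k 2 with h2 | h2
        · have hk1 : k = 1 := by omega
          subst hk1
          have : gm 1 = 0 := by decide
          rw [this]
          simp
          linarith
        · have h4 : s ^ (k - 2) * s = s ^ (k - 1) := by
            rw [← pow_succ]
            congr 1
            omega
          have h5 : (gm k : ℝ) * k * s ^ (k - 2) * (9 * N * s) =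
              gm k * (9 * k) * s ^ (k - 1) * N := by
            rw [← h4]
            ring
          rw [h5]
          apply le_of_eq
          ring

end Pool.Agent.Q63.QT
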